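import Pool.Agent.helper83.ORE.SpecDE

/-!
# Row DPR (a polynomial with prescribed roots, invariant under the Frobenius map)
-/

set_option autoImplicit false

namespace Pool.Agent.ORE

open Module Pool.Agent.GS Polynomial

open scoped BigOperators

/-- Cyclic shift of a periodic product. -/
theorem DPR_shift {R : Type} [CommMonoid R] (g : ℕ → R) (n : ℕ) (hg : ∀ i, g (i + n) = g i)
    (k : ℕ) : ∏ i ∈ Finset.range n, g (i + k) = ∏ i ∈ Finset.range n, g i := by
  induction k with
  | zero => rfl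
  | succ k ih =>
    rw [← ih]
    rcases n with _ | m
    · rfl
    · rw [Finset.prod_range_succ, Finset.prod_range_succ' (fun i => g (i + k))]
      congr 1
      · refine Finset.prod_congr rfl fun i _ => ?_
        congr 1
        omega
      · rw [show m + (k + 1) = 0 + k + (m + 1) by omega, hg]

theorem DPR_rev {M : Type} [Field M] (a : M) (ha : a ≠ 0) :
    reverse (X + C a) = C a * (X + C a⁻¹) := by
  ext i
  rw [coeff_reverse, natDegree_X_add_C]
  rcases i with _ | _ | i
  · simp [ha]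
  · simp
  · have h1 : (revAt 1) (i + 1 + 1) = i + 1 + 1 := revAt_eq_self_of_lt (by omega)
    rw [h1, coeff_C_mul]
    simp [coeff_X]

theorem DPR_revprod {M : Type} [Field M] (x : ℕ → M) (hx : ∀ i, x i ≠ 0) (m : ℕ) :
    reverse (∏ i ∈ Finset.range m, (X + C (x i))) =
      C (∏ i ∈ Finset.range m, x i) * ∏ i ∈ Finset.range m, (X + C (x i)⁻¹) := by
  induction m with
  | zero =>
    rw [Finset.range_zero, Finset.prod_empty, Finset.prod_empty, Finset.prod_empty, mul_one,
      ← C_1, reverse_C]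
  | succ m ih =>
    rw [Finset.prod_range_succ, reverse_mul_of_domain, ih, DPR_rev _ (hx m),
      Finset.prod_range_succ, Finset.prod_range_succ, C_mul]
    ring

theorem DPR : DPR_stmt := by
  intro M _ h2 f q' n r h hq hf hn hr hhr hh1 hrq hcase
  have : CharP M 2 := charP2 h2
  have : ExpChar M 2 := ExpChar.prime Nat.prime_two
  have h0 : h ≠ 0 := by
    rintro rfl
    rw [zero_pow hr.ne_zero] at hhr
    exact zero_ne_one hhr
  have hq1 : 2 ≤ q' := by
    rw [hq]
    calc 2 = 2 ^ 1 := (pow_one 2).symm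
      _ ≤ 2 ^ f := Nat.pow_le_pow_right (by norm_num) hf
  set x : ℕ → M := fun i => h ^ ((q' ^ 2) ^ i) with hx
  have hxne : ∀ i, x i ≠ 0 := fun i => pow_ne_zero _ h0
  have hper1 : h ^ ((q' ^ 2) ^ n) = h := by
    have h3 : (q' ^ 2) ^ n = q' ^ n * q' ^ n := by
      rw [← pow_mul, two_mul, pow_add]
    rw [h3, pow_mul]
    rcases hcase with hc | hc
    · rw [hc, hc]
    · rw [hc, inv_pow, hc, inv_inv]
  have hper : ∀ i, x (i + n) = x i := by
    intro i
    show h ^ ((q' ^ 2) ^ (i + n)) = h ^ ((q' ^ 2) ^ i)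
    rw [Nat.add_comm, pow_add, pow_mul, hper1]
  have hx0 : x 0 = h := by
    show h ^ ((q' ^ 2) ^ 0) = h
    rw [pow_zero, pow_one]
  have hn1 : 1 ≤ n := by
    obtain ⟨k, hk⟩ := hn
    omega
  set p : M[X] := ∏ i ∈ Finset.range n, (X + C (x i)) with hp
  have hmonic : p.Monic := monic_prod_of_monic _ _ fun i _ => monic_X_add_C _
  have hdeg : p.natDegree = n := by
    rw [hp, natDegree_prod_of_monic _ _ fun i _ => monic_X_add_C _]
    simp
  have hroot : p.eval h = 0 := by
    rw [hp, eval_prod]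
    apply Finset.prod_eq_zero (Finset.mem_range.2 (by omega : 0 < n))
    rw [eval_add, eval_X, eval_C, hx0]
    linear_combination h * h2
  -- the constant term
  set N : M := ∏ i ∈ Finset.range n, x i with hN
  have hc0 : p.coeff 0 = N := by
    rw [coeff_zero_eq_eval_zero, hp, eval_prod, hN]
    refine Finset.prod_congr rfl fun i _ => ?_
    rw [eval_add, eval_X, eval_C, zero_add]
  have hNne : N ≠ 0 := Finset.prod_ne_zero_iff.2 fun i _ => hxne i
  have hN1 : N = 1 := by
    have h3 : N ^ (q' ^ 2) = N := by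
      rw [hN, ← Finset.prod_pow]
      have h4 : ∀ i, x i ^ (q' ^ 2) = x (i + 1) := by
        intro i
        show (h ^ ((q' ^ 2) ^ i)) ^ (q' ^ 2) = h ^ ((q' ^ 2) ^ (i + 1))
        rw [← pow_mul, ← pow_succ]
      rw [Finset.prod_congr rfl fun i _ => h4 i]
      exact DPR_shift x n hper 1
    have hq2 : 1 ≤ q' ^ 2 := Nat.one_le_pow _ _ (by omega)
    have h4 : N ^ (q' ^ 2 - 1) = 1 := by
      have h5 : N * N ^ (q' ^ 2 - 1) = N * 1 := by
        rw [← pow_succ', Nat.sub_add_cancel hq2, h3, mul_one]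
      exact mul_left_cancel₀ hNne h5
    have h5 : N ^ r = 1 := by
      rw [hN, ← Finset.prod_pow]
      apply Finset.prod_eq_one
      intro i _
      show (h ^ ((q' ^ 2) ^ i)) ^ r = 1
      rw [← pow_mul, mul_comm, pow_mul, hhr, one_pow]
    have h6 : orderOf N ∣ r := orderOf_dvd_of_pow_eq_one h5
    have h7 : orderOf N ∣ q' ^ 2 - 1 := orderOf_dvd_of_pow_eq_one h4
    rcases (Nat.dvd_prime hr).1 h6 with h8 | h8
    · exact orderOf_eq_one_iff.1 h8
    · rw [h8] at h7
      exact absurd h7 hrq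
  -- the Frobenius map
  set φ : M →+* M := iterateFrobenius M 2 f with hφ
  have hφx : ∀ z, φ z = z ^ q' := by
    intro z
    rw [hφ, iterateFrobenius_def, hq]
  have hmap : p.map φ = ∏ i ∈ Finset.range n, (X + C (x i ^ q')) := by
    rw [hp, Polynomial.map_prod]
    refine Finset.prod_congr rfl fun i _ => ?_
    rw [Polynomial.map_add, Polynomial.map_X, Polynomial.map_C, hφx]
  obtain ⟨k, hk⟩ := hn
  have hxx : ∀ i, x (i + (k + 1)) = (h ^ (q' ^ n)) ^ (q' ^ (2 * i + 1)) := by
    intro i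
    show h ^ ((q' ^ 2) ^ (i + (k + 1))) = _
    rw [← pow_mul, ← pow_mul, ← pow_add]
    congr 2
    omega
  have hxq : ∀ i, x i ^ q' = h ^ (q' ^ (2 * i + 1)) := by
    intro i
    show (h ^ ((q' ^ 2) ^ i)) ^ q' = _
    rw [← pow_mul, ← pow_mul, ← pow_succ]
  have hrev : p.reverse = ∏ i ∈ Finset.range n, (X + C (x i)⁻¹) := by
    rw [hp, DPR_revprod x hxne n, ← hN, hN1, C_1, one_mul]
  refine ⟨fun i => p.coeff (n - i), ?_, ?_, ?_⟩
  · rw [eval_eq_sum_range, hdeg, Finset.sum_range_succ] at hroot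
    have h3 : p.coeff n = 1 := by
      have := hmonic.coeff_natDegree
      rwa [hdeg] at this
    rw [h3, one_mul] at hroot
    have h4 : ∑ i ∈ Finset.range n, p.coeff i * h ^ i =
        p.coeff 0 * h ^ 0 + ∑ i ∈ Finset.Ico 1 n, p.coeff i * h ^ i := by
      rw [Finset.range_eq_Ico, Finset.sum_eq_sum_Ico_succ_bot (by omega : 0 < n)]
    have h5 : ∑ i ∈ Finset.Ico 1 n, p.coeff (n - i) * h ^ (n - i) =
        ∑ i ∈ Finset.Ico 1 n, p.coeff i * h ^ i := by
      have h6 := Finset.sum_Ico_reflect (fun i => p.coeff i * h ^ i) 1 (m := n) (n := n)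
        (by omega)
      rw [show n + 1 - n = 1 by omega, show n + 1 - 1 = n by omega] at h6
      exact h6
    rw [h4, hc0, hN1, pow_zero, mul_one] at hroot
    show h ^ n + ∑ i ∈ Finset.Ico 1 n, p.coeff (n - i) * h ^ (n - i) + 1 = 0
    rw [h5]
    linear_combination hroot
  · intro hc i hi
    have h3 : p.map φ = p := by
      rw [hmap, hp]
      rw [← DPR_shift (fun i => (X + C (x i) : M[X])) n (fun i => by rw [hper i]) (k + 1)]
      refine Finset.prod_congr rfl fun i _ => ?_
      rw [hxx, hc, hxq]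
    show p.coeff (n - i) ^ q' = p.coeff (n - i)
    rw [← hφx, ← coeff_map, h3]
  · intro hc i hi
    rw [Finset.mem_Ico] at hi
    have h3 : p.map φ = p.reverse := by
      rw [hmap, hrev]
      rw [← DPR_shift (fun i => (X + C (x i)⁻¹ : M[X])) n (fun i => by rw [hper i]) (k + 1)]
      refine Finset.prod_congr rfl fun i _ => ?_
      rw [hxx, hc, hxq, inv_pow, inv_inv]
    show p.coeff (n - i) ^ q' = p.coeff (n - (n - i))
    rw [← hφx, ← coeff_map, h3, coeff_reverse, hdeg, revAt_le (by omega)]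

end Pool.Agent.ORE
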