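import Pool.Agent.helper83.ORE.SpecDE

/-!
# Row DZ (assembly of part D)
-/

set_option autoImplicit false

namespace Pool.Agent.ORE

open Module Pool.Agent.GS

open scoped BigOperators

noncomputable section

/-- The order of `h` does not divide `n`. -/
theorem DZ_ord {q m r n : ℕ} (hr : r.Prime) (hr2 : r ≠ 2) (hq : ∃ t, q = 2 ^ t)
    (ho : ∀ i : ℕ, r ∣ q ^ (2 * i) - 1 ↔ m ∣ i) (hn : 0 < n) (hnm : n ≤ m) : ¬ r ∣ n := by
  intro hrn
  obtain ⟨t, ht⟩ := hq
  have hodd : Odd r := hr.odd_of_ne_two hr2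
  obtain ⟨i, hi⟩ := hodd
  have hcop : Nat.Coprime q r := by
    rw [ht]
    apply Nat.Coprime.pow_left
    exact (Nat.coprime_primes Nat.prime_two hr).2 (Ne.symm hr2)
  have h1 : r ∣ q ^ (2 * i) - 1 := by
    have h2 := Nat.ModEq.pow_totient hcop
    rw [Nat.totient_prime hr, show r - 1 = 2 * i by omega] at h2
    exact (Nat.modEq_iff_dvd' (Nat.one_le_pow _ _ (by rw [ht]; positivity))).1 h2.symm
  have h2 : m ∣ i := (ho i).1 h1
  have hi0 : 0 < i := by
    rcases Nat.eq_zero_or_pos i with h | h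
    · rw [h] at hi
      have := hr.one_lt
      omega
    · exact h
  have h3 : m ≤ i := Nat.le_of_dvd hi0 h2
  have h4 : r ≤ n := Nat.le_of_dvd hn hrn
  omega

/-- The eigenvector of the dual map. -/
theorem DZ_phi {F E V M : Type} [Field F] [Field E] [Algebra F E] [AddCommGroup V] [Module F V]
    [Field M] {ρ : E} {n : ℕ} [NeZero n] (ζ : ZMod n → QL ρ →ₗ[F] V)
    (π : ZMod n → V →ₗ[F] QL ρ) (ι : QL ρ →+* M) (Y : ZMod n → M) (h : M) (u : ZMod n → QL ρ)
    (hz : ∀ i l z, π i (ζ l z) = if i = l then z else 0)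
    (hY1 : ∀ i, Y (i + 1) + ι (star (u i)) = h * Y i) (hY2 : ∑ i, ι (u i) * Y (i + 1) = 1)
    (P e : Equiv.Perm V) (hP : ∀ i x, π (i + 1) (P x) = π i x)
    (he : ∀ x, e x = x + ∑ i, ζ i ((∑ l, π l x * star (u l)) * u i)) (x : V) :
    ∑ i, ι (π i ((P * e) x)) * Y i = h * ∑ i, ι (π i x) * Y i := by
  classical
  have h1 : ∑ i, ι (π i ((P * e) x)) * Y i = ∑ i, ι (π (i + 1) ((P * e) x)) * Y (i + 1) :=
    (Equiv.sum_comp (Equiv.addRight (1 : ZMod n)) (fun i => ι (π i ((P * e) x)) * Y i)).symm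
  have h2 : ∀ i, π i (e x) = π i x + (∑ l, π l x * star (u l)) * u i := by
    intro i
    rw [he, map_add, map_sum]
    congr 1
    rw [Finset.sum_congr rfl fun l _ => hz i l _]
    rw [Finset.sum_ite_eq Finset.univ i]
    simp
  rw [h1]
  have h3 : ∀ i, ι (π (i + 1) ((P * e) x)) * Y (i + 1) =
      ι (π i x) * Y (i + 1) + ι (∑ l, π l x * star (u l)) * (ι (u i) * Y (i + 1)) := by
    intro i
    rw [Equiv.Perm.mul_apply, hP, h2, map_add, map_mul]
    ring
  rw [Finset.sum_congr rfl fun i _ => h3 i, Finset.sum_add_distrib, ← Finset.mul_sum, hY2, mul_one,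
    map_sum, ← Finset.sum_add_distrib, Finset.mul_sum]
  refine Finset.sum_congr rfl fun i _ => ?_
  rw [map_mul]
  linear_combination ι (π i x) * hY1 i

theorem DZ (sgq : SGQ_stmt) (ord : ORD_stmt) (onb : ONB_stmt) (dsb : DSB_stmt) (dhr : DHR_stmt)
    (dar : DAR_stmt) (dze : DZE_stmt) (dpi : DPI_stmt) (dpz : DPZ_stmt) (dtr : DTR_stmt)
    (dcy : DCY_stmt) (delh : DEL_stmt) (dsq : DSQ_stmt) (dio : DIO_stmt) (dco : DCO_stmt)
    (dyy : DYY_stmt) (dnm : DNM_stmt) : DZ_stmt := by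
  intro F V K _ _ _ _ _ _ _ _ _ Q h2 hN h8 k hk σ j hD r hr hr2 hkr d n hdn hn hn3 y hy
  classical
  have hSO : SO Q := sgq Q h2 hN h8
  obtain ⟨E, hE⟩ := dsb d n hdn
  have hmpos : 0 < finrank F K := finrank_pos
  have hd : 0 < d := by
    rcases Nat.eq_zero_or_pos d with h | h
    · rw [hdn, h, Nat.zero_mul] at hmpos
      exact absurd hmpos (lt_irrefl _)
    · exact h
  have hEK : finrank E K = n := by
    have h1 := Module.finrank_mul_finrank F E K
    rw [hE, hdn] at h1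
    exact Nat.eq_of_mul_eq_mul_left hd h1
  have hFE : Finite E := Finite.of_injective (Subtype.val : E → K) Subtype.val_injective
  have : NeZero n := ⟨by omega⟩
  have h2K : (2 : K) = 0 := by
    have h3 := congrArg (algebraMap F K) h2
    rwa [map_ofNat, map_zero] at h3
  have h2E : (2 : E) = 0 := by
    have h3 := congrArg (algebraMap F E) h2
    rwa [map_ofNat, map_zero] at h3
  let M := AlgebraicClosure K
  have h2M : (2 : M) = 0 := by
    have h3 := congrArg (algebraMap K M) h2K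
    rwa [map_ofNat, map_zero] at h3
  -- the root
  obtain ⟨h, hh⟩ : ∃ h : M, h ^ 2 + algebraMap K M σ * h + 1 = 0 := by
    have hdeg : (Polynomial.X ^ 2 + Polynomial.C (algebraMap K M σ) * Polynomial.X +
        1 : Polynomial M).degree = 2 := by
      compute_degree!
    obtain ⟨h, hh⟩ := IsAlgClosed.exists_root (Polynomial.X ^ 2 +
      Polynomial.C (algebraMap K M σ) * Polynomial.X + 1 : Polynomial M) (by
        rw [hdeg]; decide)
    refine ⟨h, ?_⟩
    simpa [Polynomial.IsRoot] using hh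
  have hhr : h ^ r = 1 := dhr Q h2 k hk σ j hD r hkr h hh
  have hh1 : h ≠ 1 := by
    intro hc
    rw [hc] at hh
    have h3 : algebraMap K M σ = 0 := by linear_combination hh - h2M
    exact hD.s0 ((map_eq_zero _).1 h3)
  have hord := ord Q h2 k hk σ j hD r hr hr2 hkr
  have hcardE : Nat.card E = Nat.card F ^ d := by
    rw [← hE]
    exact Module.natCard_eq_pow_finrank
  have hrE : ¬ r ∣ Nat.card E ^ 2 - 1 := by
    rw [hcardE, ← pow_mul, mul_comm d 2, hord d, hdn]
    intro hc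
    have h3 := Nat.le_of_dvd hd hc
    nlinarith
  have hq : ∃ t, Nat.card F = 2 ^ t := by
    have : CharP F 2 := charP2 h2
    have : Fintype F := Fintype.ofFinite F
    obtain ⟨t, -, ht⟩ := FiniteField.card F 2
    exact ⟨t, by rw [Nat.card_eq_fintype_card]; exact ht⟩
  have hhn : h ^ n ≠ 1 := by
    intro hc
    have h3 : orderOf h = r := by
      rcases (Nat.dvd_prime hr).1 (orderOf_dvd_of_pow_eq_one hhr) with h4 | h4
      · exact absurd (orderOf_eq_one_iff.1 h4) hh1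
      · exact h4
    have h4 : r ∣ n := by
      rw [← h3]
      exact orderOf_dvd_of_pow_eq_one hc
    refine DZ_ord hr hr2 hq hord (by omega) ?_ h4
    rw [hdn]
    nlinarith
  obtain ⟨a, ρ, ha⟩ := dar (E := E) (K := K) h2E (by rw [hEK]; exact hn) ((σ⁻¹) ^ 2)
  -- orthonormal bases
  obtain ⟨u₀, hu₀⟩ := onb (F := E) (K := K) h2E
  obtain ⟨w, hw⟩ : ∃ w : Basis (Fin d) F E,
      ∀ l l', Algebra.trace F E (w l * w l') = if l = l' then 1 else 0 := by
    have h3 := onb (F := F) (K := E) h2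
    rw [hE] at h3
    exact h3
  obtain ⟨ε⟩ : Nonempty (ZMod n ≃ Fin (finrank E K)) := by
    refine ⟨Fintype.equivFinOfCardEq ?_⟩
    rw [ZMod.card, hEK]
  have hu₁ : ∀ i i' : ZMod n, Algebra.trace E K (u₀ (ε i) * u₀ (ε i')) =
      if i = i' then 1 else 0 := by
    intro i i'
    rw [hu₀]
    simp only [EmbeddingLike.apply_eq_iff_eq]
  obtain ⟨ζ, hζ⟩ := dze Q h2 k hk σ j hD a ρ ha n (fun i => u₀ (ε i)) hu₁
  obtain ⟨π, hπ⟩ := dpi Q ρ n ζ
  obtain ⟨hz, hzP⟩ := dpz Q ρ n ζ π hζ hπ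
  obtain ⟨c, hc0, hcn, hcs⟩ := dco (E := E) (K := K) (M := M) h2E n hEK hn σ a ρ h hD.s0 ha hh r
    hr hhr hrE
  obtain ⟨u, hu⟩ := dsq ρ h2E n hn c hcn
  obtain ⟨ι, hι⟩ := dio (M := M) h2E σ a ρ h hD.s0 ha hh
  have hu0 : ∑ i, u i * star (u i) = 0 := by
    have h3 := hu 0
    simp only [add_zero] at h3
    rw [h3, hc0]
  obtain ⟨Y, hY1, hY2⟩ := dyy ι n u h h2M hhn hu0 (by
    rw [hcs]
    refine Finset.sum_congr rfl fun l _ => ?_
    rw [hu, hι])
  obtain ⟨P, hPO, hPG, hPz⟩ := dcy Q y n (2 * d) (by omega) (fun i z => ζ i z)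
    (fun i i' hii => dtr Q h2 hSO y hy ρ n ζ hζ d w hw i i' hii)
  obtain ⟨e, heO, heG, hex⟩ := delh Q h2 hSO y hy ρ n ζ π hζ hπ d w hw u hu0
  have hPQ : P ∈ OQ Q := OmQ_le Q hPO
  refine ⟨P * e, (OmQ Q).mul_mem hPO heO, ?_, ?_⟩
  · refine (hPG.mul heG hPQ.1).mono ?_
    rw [hdn]
    obtain ⟨m, rfl⟩ : ∃ m, n = m + 1 := ⟨n - 1, by omega⟩
    rw [Nat.add_sub_cancel]
    apply le_of_eq
    ring
  · refine dnm Q h2 ?_ (P * e) (OmQ_le Q ((OmQ Q).mul_mem hPO heO))
      (fun x => ∑ i, ι (π i x) * Y i) h ?_ ?_ r hr hhr hh1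
    · by_contra hcon
      push Not at hcon
      have h3 : ∀ x : V, x = 0 := by
        intro x
        apply hN
        intro z
        have h4 := Q_add Q x z
        rw [hcon, hcon, hcon] at h4
        linear_combination -h4
      have h4 : Subsingleton V := ⟨fun x z => by rw [h3 x, h3 z]⟩
      rw [Module.finrank_zero_of_subsingleton] at h8
      omega
    · obtain ⟨i, -, hi⟩ := Finset.exists_ne_zero_of_sum_ne_zero (by rw [hY2]; exact one_ne_zero)
      refine ⟨ζ (i + 1) 1, ?_⟩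
      have h3 : ∑ l, ι (π l (ζ (i + 1) 1)) * Y l = Y (i + 1) := by
        rw [Finset.sum_eq_single (i + 1)]
        · rw [hz, if_pos rfl, map_one, one_mul]
        · intro l _ hl
          rw [hz, if_neg hl, map_zero, zero_mul]
        · intro hc
          exact absurd (Finset.mem_univ _) hc
      show ∑ l, ι (π l (ζ (i + 1) 1)) * Y l ≠ 0
      rw [h3]
      exact right_ne_zero_of_mul hi
    · intro x
      exact DZ_phi ζ π ι Y h u hz hY1 hY2 P e (hzP P hPQ hPz) hex x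

end

end Pool.Agent.ORE
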