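import Pool.Agent.helper83.ORE.SpecDE

/-!
# Row EZ (assembly of part E)
-/

set_option autoImplicit false

namespace Pool.Agent.ORE

open Module Pool.Agent.GS

theorem EZ (rp : RP_stmt) (sgq : SGQ_stmt) (w2 : W2_stmt) (erk : ERK_stmt) (e2r : E2R_stmt)
    (ex4 : EX4_stmt) (e4r : E4R_stmt) : EZ_stmt := by
  intro F V _ _ _ _ _ Q h2 hN h8 y hy l hl hyl hy1 hyrq
  have hRO : RO Q := rp Q h2 hN h8
  have hSO : SO Q := sgq Q h2 hN h8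
  have hWP : WP Q := w2 Q h2 hN h8
  by_cases hc : (¬ ∃ c : F, ∀ v, y v + y⁻¹ v = c • v) ∨ ∃ b, Q b ≠ 0 ∧ y b = b
  · obtain ⟨a, b, ha, hb, hab, hG⟩ := erk Q h2 hN (by omega) hRO y hy hy1 hc
    exact e2r Q h2 hN h8 hRO hWP y a b ha hb hab hG
  · rw [not_or, not_not] at hc
    obtain ⟨⟨τ, hτ⟩, hf⟩ := hc
    have hf' : ∀ v, y v = v → Q v = 0 := by
      intro v hv
      by_contra h
      exact hf ⟨v, h, hv⟩
    obtain ⟨a₁, a₂, a₃, a₄, k1, k2, k3, k4, k5, k6, k7, k8, k9, k10, k11, k12, k13, k14, k15, k16,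
      k17, k18, k19, k20, k21, k22, k23, k24, k25, k26⟩ := ex4 Q h2 hN h8 y hy τ hτ hf'
    obtain ⟨h, hh, hG, hNS⟩ := e4r Q h2 hN hSO y hy a₁ a₂ a₃ a₄ k1 k2 k3 k4 k5 k6 k7 k8 k9 k10
      k11 k12 k13 k14 k15 k16 k17 k18 k19 k20 k21 k22 k23 k24 k25 k26
    exact ⟨h, hh, hG.mono (by norm_num), hNS⟩

end Pool.Agent.ORE
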