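import Pool.Agent.helper53.ORE.Spec

/-!
# Project ore (MP_561ff4_al): orthogonal groups in characteristic two. Parts D and E

Part E: `r = 5`, `m = 2`, linear `y`: an element of order divisible by 5 from 4 conjugates. Part D: `m = d n`, `n ≥ 3` odd: an element of order divisible by `r` is a product of
`m` long root elements. Page: /team-store/MP_561ff4_EVEN_helper83.md, sections D and E (all formulas checked by computer).

Rules: row `X`: file `Pool/Agent/<seat>/ORE/X.lean`, `import Pool.Agent.helper83.ORE.SpecDE`, `set_option autoImplicit false`, `namespace Pool.Agent.ORE`, `open Module Pool.Agent.GS`,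
`theorem X (h1 : Y_stmt) ... : X_stmt`; hypotheses: any EARLIER statements `Y_stmt` of this file, any statements of Pool/Agent/helper53/ORE/Spec.lean (part G: `CWQ`, `NSV`, `RP`, `W2`, `SGQ`; `DQI`, `ORD`, `ONB`; not `DZ`, `EZ`) and any statements
`GS.Z_stmt` of Pool/Agent/helper22/GS/Spec.lean (all proved: for example `GS.DU_stmt`, dual vectors). Take as few as possible. Auxiliary lemmas are prefixed `X_`. No convert, no congr!, no double quotes, no native_decide.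

`Basic.lean` (helper53/ORE) has the API: `Q_add`, `Q_smul`, `Q_zero`, `pb_symm`, `pb_self2`, `Q_sum`, `add2`, `addV`, `neg2`, `negV`, `eq_of_add2`, `eq_of_addV`, `charP2`, `OQ`, `OmQ`, `OmQ_le`, `OQ_pb`,
`OmQ_conj`; transvections `rq`: `rq_apply`, `rq_of_orth`, `rq_self`, `rq_swap`, `rq_sq`, `rq_inv`, `rq_mem`, `rq_conj_mem`, `rq_smul`, `rq_comm`; Siegel elements `sq` (long root elements if
`Q d = 0`): `sq_apply`, `sq_sq`, `sq_inv`, `sq_mem`, `sq_conj_mem`, `sq_add`; generation `Gq`: `Gq.mul`, `Gq.mono`, `Gq.one`, `Gq.self`, `Gq.conj`, `Gq.comm`, `Gq.pow`; `Bl`, `Dq`. `[y,t] = y t y⁻¹ t⁻¹`.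
Characteristic two is the hypothesis `(2 : F) = 0`; `B = pb Q` is alternating. If `Nd Q` then `GS.Alt (pb Q)`. Scalars `c` with `c² = 1` are `1`; in a finite field all scalars are squares
(`FiniteField.isSquare_of_char_two` or injectivity of the Frobenius map).
-/

set_option autoImplicit false
set_option linter.unusedVariables false

namespace Pool.Agent.ORE

open Module Pool.Agent.GS

open scoped BigOperators

noncomputable section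

variable {F V : Type} [Field F] [AddCommGroup V] [Module F V]

/-- The Siegel elements are in `OmQ Q` (a row of part G). -/
def SO (Q : QuadraticForm F V) : Prop := ∀ u d : V, Q u = 0 → pb Q u d = 0 → sq Q u d ∈ OmQ Q

/-- The products of two transvections are in `OmQ Q` (a row of part G). -/
def RO (Q : QuadraticForm F V) : Prop := ∀ a b : V, Q a ≠ 0 → Q b ≠ 0 → rq Q a * rq Q b ∈ OmQ Q

/-- Witt's theorem for pairs, with elements of `OmQ Q` (a row of part G). -/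
def WP (Q : QuadraticForm F V) : Prop := ∀ a b c d : V, LinearIndependent F ![a, b] →
  LinearIndependent F ![c, d] → Q a = Q c → Q b = Q d → pb Q a b = pb Q c d →
  ∃ g ∈ OmQ Q, g a = c ∧ g b = d

/-! ## E. Order divisible by five -/

/-- EPQ (prescribed vectors; uses GS.DU). `2k < N`: DU gives `d₀` with the products `α`. `U = {x | B(v_i, x) = 0}` has dimension `N - k > N/2`, so `B ≠ 0` on `U` (a totally isotropic subspace has dimension at most `N/2`): `x, y ∈ U`, `B(x,y) = 1`. Replace `d₀` by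
`d₀ + B(d₀,y) x + B(d₀,x) y`: now `d₀ ⊥ x, y`, and `Q(d₀ + λ x + μ y) = Q(d₀) + λ² Q(x) + λ μ + μ² Q(y)` takes every value: if `Q(x) ≠ 0` take `μ = 0` and `λ² = (τ + Q(d₀)) / Q(x)` (all scalars are squares); similarly if `Q(y) ≠ 0`; if `Q(x) = Q(y) = 0` take `μ = 1`.
Second part, `2k + 2 < N`: first choose `d₀` with the products `α` outside the span `S` of the `v_i` (if `d₀ ∈ S` add a vector of `U` outside `S`: `dim U = N - k > k`), then `x, y` in `{x | B(v_i,x) = 0, B(d₀,x) = 0}` (dimension `≥ N - k - 1 > N/2`) with `B(x,y) = 1`, `w = d₀ + λ x + μ y`.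
If `w ∈ S` then `λ x + μ y ∈ S + F d₀` is orthogonal to `x` and `y`, so `λ = μ = 0` and `d₀ ∈ S`. -/
def EPQ_stmt : Prop := ∀ {F V : Type} [Field F] [Finite F] [AddCommGroup V] [Module F V]
  [FiniteDimensional F V] (Q : QuadraticForm F V), (2 : F) = 0 → Nd Q → ∀ (k : ℕ) (v : Fin k → V),
  LinearIndependent F v → ∀ (α : Fin k → F) (τ : F),
  (2 * k < finrank F V → ∃ w, (∀ i, pb Q (v i) w = α i) ∧ Q w = τ) ∧
  (2 * k + 2 < finrank F V → ∃ w, (∀ i, pb Q (v i) w = α i) ∧ Q w = τ ∧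
    w ∉ Submodule.span F (Set.range v))

/-- ESN (an operator with all nonsingular vectors as eigenvectors; uses EPQ). Scale: it is enough to consider vectors with `Q = 1`. `Q a = Q b = 1`, `s a = λ a`, `s b = μ b`, `a ≠ b` (so independent). If `B(a,b) ≠ 0` then `Q(a + b) = B(a,b) ≠ 0`, `a + b` is an eigenvector and
`λ = μ`. If `B(a,b) = 0`: EPQ for `a, b`: `c` with `B(a,c) = B(b,c) = 1`, `Q c = 1`, so `λ = λ_c = μ`. Every vector `x` is a sum of nonsingular vectors or nonsingular: if `Q x = 0`, `x ≠ 0`, EPQ for `x`: `a` with `B(x,a) = 0`, `Q a = 1`: `Q(x + a) = 1`, `x = (x + a) + a`. -/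
def ESN_stmt : Prop := ∀ {F V : Type} [Field F] [Finite F] [AddCommGroup V] [Module F V]
  [FiniteDimensional F V] (Q : QuadraticForm F V), (2 : F) = 0 → Nd Q → 6 ≤ finrank F V →
  ∀ s : V →ₗ[F] V, (∀ v, Q v ≠ 0 → ∃ c : F, s v = c • v) → ∃ c : F, ∀ v, s v = c • v

/-- ERK (a product of two transvections from two conjugates; uses EPQ, ESN). First case: `s v = y v + y⁻¹ v` is not a scalar: by ESN there is `a`, `Q a = 1` after scaling, with `s a ∉ F a`. `t = rq a * rq (y a) ∈ OmQ` (`RO`), `y t y⁻¹ = rq (y a) * rq (y (y a))` (`rq_conj_mem`), so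
`[y,t] = rq (y a) * rq (y (y a)) * rq (y a) * rq a = rq w * rq a`, `w = rq (y a) (y (y a)) = y (y a) + B(y (y a), y a) • y a`, `Q w = 1`; `w = a` would give `s a = B(y a, a) a`. Second case: `y b = b`, `Q b ≠ 0`: there is `a` with `Q a = 1`, `y a ≠ a` (some `x` is moved; if `Q x = 0`
write `x = (x + a') + a'` as in ESN; scale). `t = rq a * rq b`, `[y,t] = rq (y a) * rq b * rq b * rq a = rq (y a) * rq a`. -/
def ERK_stmt : Prop := ∀ {F V : Type} [Field F] [Finite F] [AddCommGroup V] [Module F V]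
  [FiniteDimensional F V] (Q : QuadraticForm F V), (2 : F) = 0 → Nd Q → 6 ≤ finrank F V → RO Q →
  ∀ y ∈ OQ Q, y ≠ 1 →
  ((¬ ∃ c : F, ∀ v, y v + y⁻¹ v = c • v) ∨ ∃ b, Q b ≠ 0 ∧ y b = b) →
  ∃ a b : V, Q a = 1 ∧ Q b = 1 ∧ a ≠ b ∧ Gq Q y 2 (rq Q a * rq Q b)

/-- EN5 (order divisible by five). If `z^j = c` is a scalar: `c² Q(w) = Q(w)` for some `w` with `Q w ≠ 0` (`Nd Q`, `V ≠ 0`: otherwise `B = 0`), so `c = 1` and `z^j v = v`. The relation gives `z^5 v = v`. If `5 ∤ j` then `z v = v`, and `5 v = v = 0`. -/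
def EN5_stmt : Prop := ∀ {F V : Type} [Field F] [AddCommGroup V] [Module F V]
  (Q : QuadraticForm F V), (2 : F) = 0 → Nd Q → ∀ z ∈ OQ Q, ∀ v : V, v ≠ 0 →
  z (z (z (z v))) + z (z (z v)) + z (z v) + z v + v = 0 → NS F 5 z

/-- EPH (the product of four transvections). `e = B(a,b) = B(c,d)`, `z = rq a * rq b * rq c * rq d` (first `rq d` is applied). If `e = 0` and `B(a,c) = B(a,d) = B(b,c) = 1`, `B(b,d) = 0`: `z a = a+b+c+d`, `z² a = c`, `z³ a = a+b+c`, `z⁴ a = a+c+d`. If `e ≠ 0`, `f = 1/e`,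
`B(a,c) = B(b,d) = 1+e+f`, `B(a,d) = B(b,c) = f`: `z a = (e+f)a + (e+f)b + (e+f)c + f d`, `z² a = c + e d`, `z³ a = (e+f)a + f b + c`, `z⁴ a = a + e b + (e+f)c + (e+f)d`. In both cases the sum of `a, z a, .., z⁴ a` is 0. (Compute with `rq_apply`, linearity, `2 = 0`, `e f = 1`; it helps to compute
`z` on a general combination `α a + β b + γ c + δ d` first.) -/
def EPH_stmt : Prop := ∀ {F V : Type} [Field F] [AddCommGroup V] [Module F V]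
  (Q : QuadraticForm F V), (2 : F) = 0 → ∀ (a b c d : V) (e : F), Q a = 1 → Q b = 1 → Q c = 1 →
  Q d = 1 → pb Q a b = e → pb Q c d = e →
  ((e = 0 ∧ pb Q a c = 1 ∧ pb Q a d = 1 ∧ pb Q b c = 1 ∧ pb Q b d = 0) ∨
    (e ≠ 0 ∧ pb Q a c = 1 + e + e⁻¹ ∧ pb Q b d = 1 + e + e⁻¹ ∧ pb Q a d = e⁻¹ ∧
      pb Q b c = e⁻¹)) →
  ∀ z : Equiv.Perm V, z = rq Q a * rq Q b * rq Q c * rq Q d →
  z (z (z (z a))) + z (z (z a)) + z (z a) + z a + a = 0

/-- E2R (order five from a product of two transvections; uses EPQ, EN5, EPH). `e = B(a,b)`; `a, b` are independent (`b = λ a` gives `λ² = 1`). EPQ (second part, `k = 2`): `c` outside the span of `a, b` with the products of EPH and `Q c = 1`; EPQ (first part, `k = 3`, `6 < 8`): `d` with the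
products of EPH with `a, b, c` and `Q d = 1`. `c, d` are independent (`c ≠ d`: `B(b,c) ≠ B(b,d)` if `e = 0`; `B(c,d) = e` if `e ≠ 0`). WP: `g ∈ OmQ` with `g a = c`, `g b = d`, so `Gq Q y 2 (rq c * rq d)` (`Gq.conj`), `Gq.mul`: `Gq Q y 4 z`. `z ∈ OmQ` by `RO`; EPH, EN5. -/
def E2R_stmt : Prop := ∀ {F V : Type} [Field F] [Finite F] [AddCommGroup V] [Module F V]
  [FiniteDimensional F V] (Q : QuadraticForm F V), (2 : F) = 0 → Nd Q → 8 ≤ finrank F V → RO Q →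
  WP Q → ∀ (y : Equiv.Perm V) (a b : V), Q a = 1 → Q b = 1 → a ≠ b →
  Gq Q y 2 (rq Q a * rq Q b) → ∃ h ∈ OmQ Q, Gq Q y 4 h ∧ NS F 5 h

/-- EQT (`B(v, y v) = 0` for singular `v`). `y² v = τ y v + v`. `τ ≠ 0`: `Q(v) = Q(y² v) = Q(τ y v + v) = τ² Q(v) + Q(v) + τ B(v, y v)`. `τ = 0`: `y² = 1`, `u = y v + v` is fixed, so `Q u = 0`, and `Q u = 2 Q(v) + B(v, y v)`. -/
def EQT_stmt : Prop := ∀ {F V : Type} [Field F] [AddCommGroup V] [Module F V]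
  (Q : QuadraticForm F V), (2 : F) = 0 → ∀ y ∈ OQ Q, ∀ τ : F, (∀ v, y v + y⁻¹ v = τ • v) →
  (∀ v, y v = v → Q v = 0) → ∀ v, Q v = 0 → pb Q v (y v) = 0

/-- ESE (singular eigenvectors; uses CWQ). CWQ: `e ∈ Z` singular, `e ≠ 0`; by nondegeneracy `f ∈ Z` with `B(e,f) = 1`, `Q f = 0` (`f + Q(f) e`). `y e = λ e`, `y f = λ' f`. For `g ∈ Z` orthogonal to `e, f` the vector `x = g + e + Q(g) f` is singular, `y x = α x`. There is `g` with `Q(g) ≠ 0`, orthogonal to `e, f`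
(dimension `≥ 3`, and `B` is nondegenerate on the orthogonal complement of `e, f` in `Z`, which is not zero). For `g ≠ 0` (then `e, f, g` are independent): `x` and `x + ...`: also `c x' = g + c e + (Q(g)/c) f`; use `x = g + e + Q(g) f`: `y g = α g + (α - λ) e + Q(g)(α - λ') f`. `y` preserves the set of vectors
orthogonal to `e, f` (as `y e ∈ F e`, `y f ∈ F f`, `y ∈ OQ`), so `α = λ`, and `α = λ'` if `Q(g) ≠ 0`. So `λ = λ'` and `y g = λ g` for all `g ∈ Z` orthogonal to `e, f`. -/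
def ESE_stmt : Prop := ∀ {F V : Type} [Field F] [Finite F] [AddCommGroup V] [Module F V]
  [FiniteDimensional F V] (Q : QuadraticForm F V), (2 : F) = 0 → ∀ y ∈ OQ Q,
  ∀ Z : Submodule F V, (∀ x ∈ Z, (∀ z ∈ Z, pb Q x z = 0) → x = 0) → 3 ≤ finrank F Z →
  (∀ z ∈ Z, Q z = 0 → ∃ c : F, y z = c • z) → ∃ c : F, ∀ z ∈ Z, y z = c • z

/-- EXZ (uses ESE, EQT). There is a singular `b ∈ Z` with `y b ∉ F b`: otherwise `y = c` on `Z` (ESE), `c² = 1` (some `z ∈ Z` has `Q z ≠ 0`, otherwise `B = 0` on `Z`), `y = 1` on `Z`, so `Q = 0` on `Z`: contradiction. `b, y b` are independent and span a totally singular plane (EQT). By nondegeneracy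
on `Z` there is `a₀ ∈ Z` with `B(a₀,b) = 0`, `B(a₀, y b) = 1` (`y b ∈ Z`); `a = a₀ + Q(a₀) • y b`. -/
def EXZ_stmt : Prop := ∀ {F V : Type} [Field F] [Finite F] [AddCommGroup V] [Module F V]
  [FiniteDimensional F V] (Q : QuadraticForm F V), (2 : F) = 0 → ∀ y ∈ OQ Q, ∀ τ : F,
  (∀ v, y v + y⁻¹ v = τ • v) → (∀ v, y v = v → Q v = 0) → ∀ Z : Submodule F V,
  (∀ z ∈ Z, y z ∈ Z) → (∀ x ∈ Z, (∀ z ∈ Z, pb Q x z = 0) → x = 0) → 3 ≤ finrank F Z →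
  ∃ a ∈ Z, ∃ b ∈ Z, Q a = 0 ∧ Q b = 0 ∧ pb Q a b = 0 ∧ pb Q a (y b) = 1

/-- EX4 (uses EXZ, EQT). EXZ for `Z = ⊤`: `a₁, a₂`. For totally singular `⟨a,b⟩`: `B(a, y b) = B(b, y a)` (EQT for `a + b`). `D = ⟨a₁, a₂, y a₁, y a₂⟩` is `y`-invariant (`y² = τ y + 1`) and nondegenerate (Gram matrix: the only nonzero products are `B(a₁, y a₂) = B(a₂, y a₁) = 1`; `B(y a₁, y a₂) = 0`), of dimension 4;
its orthogonal complement `Z` is `y`-invariant, nondegenerate, of dimension `N - 4 ≥ 4`: EXZ: `a₃, a₄ ∈ Z`. -/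
def EX4_stmt : Prop := ∀ {F V : Type} [Field F] [Finite F] [AddCommGroup V] [Module F V]
  [FiniteDimensional F V] (Q : QuadraticForm F V), (2 : F) = 0 → Nd Q → 8 ≤ finrank F V →
  ∀ y ∈ OQ Q, ∀ τ : F, (∀ v, y v + y⁻¹ v = τ • v) → (∀ v, y v = v → Q v = 0) →
  ∃ a₁ a₂ a₃ a₄ : V, Q a₁ = 0 ∧ Q a₂ = 0 ∧ Q a₃ = 0 ∧ Q a₄ = 0 ∧
    pb Q a₁ a₂ = 0 ∧ pb Q a₁ a₃ = 0 ∧ pb Q a₁ a₄ = 0 ∧ pb Q a₂ a₃ = 0 ∧ pb Q a₂ a₄ = 0 ∧
    pb Q a₃ a₄ = 0 ∧ pb Q a₁ (y a₁) = 0 ∧ pb Q a₂ (y a₂) = 0 ∧ pb Q a₃ (y a₃) = 0 ∧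
    pb Q a₄ (y a₄) = 0 ∧ pb Q a₁ (y a₂) = 1 ∧ pb Q a₂ (y a₁) = 1 ∧ pb Q a₃ (y a₄) = 1 ∧
    pb Q a₄ (y a₃) = 1 ∧ pb Q a₁ (y a₃) = 0 ∧ pb Q a₁ (y a₄) = 0 ∧ pb Q a₂ (y a₃) = 0 ∧
    pb Q a₂ (y a₄) = 0 ∧ pb Q a₃ (y a₁) = 0 ∧ pb Q a₃ (y a₂) = 0 ∧ pb Q a₄ (y a₁) = 0 ∧
    pb Q a₄ (y a₂) = 0

/-- E4R (order five from two conjugates; uses EN5). `t = sq a₁ a₄ * sq a₂ a₃ * sq a₃ a₄ ∈ OmQ` (`SO`), `z = [y,t] = t' t`, `t' = y t y⁻¹ = sq (y a₁) (y a₄) * sq (y a₂) (y a₃) * sq (y a₃) (y a₄)` (`sq_conj_mem`; the three factors of `t` commute, `t⁻¹ = t`; or compute `t⁻¹` directly).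
`t`: fixes the `a_i`, `y a₁ ↦ y a₁ + a₃`, `y a₃ ↦ y a₃ + a₁ + a₃`. `t'`: fixes the `y a_i`, `a₁ ↦ a₁ + y a₃`, `a₃ ↦ a₃ + y a₁ + y a₃`. `z a₁ = a₁ + y a₃`, `z² a₁ = a₃ + y a₁`, `z³ a₁ = y a₁`, `z⁴ a₁ = a₃ + y a₃`: the sum is 0, `a₁ ≠ 0`: EN5. `Gq.comm`; `z ∈ OmQ`: `OmQ_conj`. -/
def E4R_stmt : Prop := ∀ {F V : Type} [Field F] [AddCommGroup V] [Module F V]
  (Q : QuadraticForm F V), (2 : F) = 0 → Nd Q → SO Q → ∀ y ∈ OQ Q, ∀ a₁ a₂ a₃ a₄ : V,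
  Q a₁ = 0 → Q a₂ = 0 → Q a₃ = 0 → Q a₄ = 0 → pb Q a₁ a₂ = 0 → pb Q a₁ a₃ = 0 →
  pb Q a₁ a₄ = 0 → pb Q a₂ a₃ = 0 → pb Q a₂ a₄ = 0 → pb Q a₃ a₄ = 0 → pb Q a₁ (y a₁) = 0 →
  pb Q a₂ (y a₂) = 0 → pb Q a₃ (y a₃) = 0 → pb Q a₄ (y a₄) = 0 → pb Q a₁ (y a₂) = 1 →
  pb Q a₂ (y a₁) = 1 → pb Q a₃ (y a₄) = 1 → pb Q a₄ (y a₃) = 1 → pb Q a₁ (y a₃) = 0 →
  pb Q a₁ (y a₄) = 0 → pb Q a₂ (y a₃) = 0 → pb Q a₂ (y a₄) = 0 → pb Q a₃ (y a₁) = 0 →
  pb Q a₃ (y a₂) = 0 → pb Q a₄ (y a₁) = 0 → pb Q a₄ (y a₂) = 0 →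
  ∃ h ∈ OmQ Q, Gq Q y 2 h ∧ NS F 5 h

/-! EZ (the result of part E; theorem `EZ (..) : EZ_stmt`, uses RP, SGQ, W2, ERK, E2R, EX4, E4R). `RO`, `SO`, `WP` from RP, SGQ, W2. If `y + y⁻¹` is not a scalar or `y` fixes a nonsingular vector: ERK, E2R. Otherwise EX4, E4R, `Gq.mono`. -/

/-! ## D. Products of long root elements -/

/-- `L = E[ω]`, `ω² = ω + ρ`; elements `⟨x, y⟩ = x + y ω`, `star ⟨x, y⟩ = ⟨x + y, -y⟩` (Mathlib `QuadraticAlgebra`: `re_mul`, `im_mul`, `QuadraticAlgebra.ext`, `re_star`, `im_star`). -/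
abbrev QL {E : Type} [Field E] (ρ : E) : Type := QuadraticAlgebra E ρ 1

/-- `n` orthogonal copies of the `F`-space `L = E[ω]` with the quadratic form `tr_{E/F}(x² + x y + ρ y²)`. -/
structure Zt {E : Type} [Field E] [Algebra F E] (Q : QuadraticForm F V) (ρ : E) {n : ℕ}
    (ζ : ZMod n → QL ρ →ₗ[F] V) : Prop where
  q : ∀ i z, Q (ζ i z) = Algebra.trace F E (z.re ^ 2 + z.re * z.im + ρ * z.im ^ 2)
  f : ∀ i z w, pb Q (ζ i z) (ζ i w) = Algebra.trace F E (z.re * w.im + z.im * w.re)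
  o : ∀ i j z w, i ≠ j → pb Q (ζ i z) (ζ j w) = 0

/-- The coordinate maps `π i : V → L` of the copies. -/
def Pt {E : Type} [Field E] [Algebra F E] (Q : QuadraticForm F V) {ρ : E} {n : ℕ}
    (ζ : ZMod n → QL ρ →ₗ[F] V) (π : ZMod n → V →ₗ[F] QL ρ) : Prop :=
  ∀ i x w, pb Q x (ζ i w) = Algebra.trace F E ((π i x).re * w.im + (π i x).im * w.re)

/-- The map `L → M`, `ω ↦ a + h/σ`. -/
def io {E K M : Type} [Field E] [Field K] [Algebra E K] [Field M] [Algebra K M] (a σ : K) (h : M)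
    {ρ : E} (z : QL ρ) : M :=
  algebraMap K M (algebraMap E K z.re) +
    algebraMap K M (algebraMap E K z.im) * (algebraMap K M a + h * (algebraMap K M σ)⁻¹)

/-- DSB (intermediate fields). `K/F` is Galois with cyclic group of order `d n` (generated by the Frobenius automorphism `φ`); `E` is the fixed field of the subgroup generated by `φ^d`, of order `n`: `IntermediateField.finrank_fixedField_eq_card` and the tower law. (Or: `E` the set of the roots of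
`X^(q^d) - X`.) -/
def DSB_stmt : Prop := ∀ {F K : Type} [Field F] [Finite F] [Field K] [Algebra F K] [Finite K]
  [FiniteDimensional F K] (d n : ℕ), finrank F K = d * n →
  ∃ E : IntermediateField F K, finrank F E = d

/-- DHR (the element `h`). `p_i, q_i ∈ K` with `T^i = p_i + q_i T` modulo `T² + σ T + 1`: `(p_{i+1}, q_{i+1}) = (q_i, p_i + σ q_i)`; `h^i = p_i + q_i h` and `k^i (j c) = j (p_i c) + k (j (q_i c))` (from `k (k (j c)) = k (j (σ c)) + j c`, which follows from `Dq.s` applied under `k`). The map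
`(x, y) ↦ j x + k (j y)` is injective: `B(j x, j c) = tr((x+c)²) - tr(x²) - tr(c²) = 0`, `B(k (j y), j c) = tr(σ y c)`, trace form nondegenerate, `σ ≠ 0`. So `k^r = 1` gives `p_r = 1`, `q_r = 0`. -/
def DHR_stmt : Prop := ∀ {F V K M : Type} [Field F] [Finite F] [AddCommGroup V] [Module F V]
  [Field K] [Algebra F K] [Finite K] [FiniteDimensional F K] [Field M] [Algebra K M]
  (Q : QuadraticForm F V), (2 : F) = 0 → ∀ k ∈ OQ Q, ∀ (σ : K) (j : K →ₗ[F] V), Dq Q k σ j →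
  ∀ r : ℕ, k ^ r = 1 → ∀ h : M, h ^ 2 + algebraMap K M σ * h + 1 = 0 → h ^ r = 1

/-- DAR (Artin - Schreier elements). `P : K → K`, `P a = a² + a` is additive with kernel `{0, 1}`, so its image has index 2 (`card K = 2 card (image)`); the same for `E`. Let `ρ₁ ∈ E` be not in `P(E)`. `ρ₁` is not in `P(K)`: a root `a ∈ K` of `X² + X + ρ₁` (irreducible over `E`, no root) would have degree 2 over
`E`, but `finrank E K` is odd. So for every `t`: `t ∈ P(K)` or `t + ρ₁ ∈ P(K)`. -/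
def DAR_stmt : Prop := ∀ {E K : Type} [Field E] [Finite E] [Field K] [Algebra E K] [Finite K]
  [FiniteDimensional E K], (2 : E) = 0 → Odd (finrank E K) → ∀ t : K,
  ∃ (a : K) (ρ : E), a ^ 2 + a + t = algebraMap E K ρ

/-- DZE (the copies `ζ`). `ζ_i z = j (u_i z.re + a u_i z.im) + k (j (σ⁻¹ u_i z.im))` (with `z.re • u_i` for `algebraMap E K z.re * u_i`; `F`-linear). With `x = z.re u_i`, `y = z.im u_i`: `Q = tr_{K/F}((x + a y)² + (y/σ)² + (x + a y) y) = tr_{K/F}(x² + x y + ρ y²) = tr_{E/F}(tr_{K/E}(u_i²) (z.re² + z.re z.im + ρ z.im²))`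
(`Dq.q`, `Dq.f`; `B(j x, k (j y)) = tr(σ x y)`; `Algebra.trace_trace`). The same computation for the polar form: `pb Q (ζ_i z) (ζ_l w) = tr_{E/F}(tr_{K/E}(u_i u_l) (z.re w.im + z.im w.re))`. -/
def DZE_stmt : Prop := ∀ {F E K V : Type} [Field F] [Finite F] [Field E] [Finite E] [Algebra F E]
  [Field K] [Finite K] [Algebra F K] [Algebra E K] [IsScalarTower F E K] [FiniteDimensional F K]
  [FiniteDimensional F E] [FiniteDimensional E K] [AddCommGroup V] [Module F V]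
  (Q : QuadraticForm F V), (2 : F) = 0 → ∀ k ∈ OQ Q, ∀ (σ : K) (j : K →ₗ[F] V), Dq Q k σ j →
  ∀ (a : K) (ρ : E), a ^ 2 + a + (σ⁻¹) ^ 2 = algebraMap E K ρ → ∀ (n : ℕ) (u : ZMod n → K),
  (∀ i i', Algebra.trace E K (u i * u i') = if i = i' then 1 else 0) →
  ∃ ζ : ZMod n → QL ρ →ₗ[F] V, Zt Q ρ ζ

/-- DNU. `w = ⟨0, c⟩` and `w = ⟨c, 0⟩`: `tr(z.re c) = 0` and `tr(z.im c) = 0` for all `c ∈ E`; the trace form is nondegenerate. -/
def DNU_stmt : Prop := ∀ {F E : Type} [Field F] [Finite F] [Field E] [Finite E] [Algebra F E]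
  [FiniteDimensional F E] (ρ : E) (z : QL ρ),
  (∀ w : QL ρ, Algebra.trace F E (z.re * w.im + z.im * w.re) = 0) → z = 0

/-- DPI (the coordinate maps). For `x ∈ V` the functionals `c ↦ pb Q x (ζ_i ⟨0, c⟩)` and `c ↦ pb Q x (ζ_i ⟨c, 0⟩)` on `E` are `tr(z.re c)` and `tr(z.im c)` for unique `z.re, z.im ∈ E` (`c ↦ tr(c ·)` is a linear bijection from `E` to its dual: `Algebra.traceForm` nondegenerate), linear in `x`. -/
def DPI_stmt : Prop := ∀ {F E V : Type} [Field F] [Finite F] [Field E] [Finite E] [Algebra F E]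
  [FiniteDimensional F E] [AddCommGroup V] [Module F V] (Q : QuadraticForm F V) (ρ : E) (n : ℕ)
  (ζ : ZMod n → QL ρ →ₗ[F] V), ∃ π : ZMod n → V →ₗ[F] QL ρ, Pt Q ζ π

/-- DPZ (properties of `π`; uses DNU). `tr(b(π_i (ζ_l z), w)) = pb Q (ζ_l z) (ζ_i w)` is `tr(b(z, w))` for `i = l` and 0 otherwise (`b(z,w) = z.re w.im + z.im w.re`). `pb Q (P x) (ζ_{i+1} w) = pb Q (P x) (P (ζ_i w)) = pb Q x (ζ_i w)`. -/
def DPZ_stmt : Prop := ∀ {F E V : Type} [Field F] [Finite F] [Field E] [Finite E] [Algebra F E]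
  [FiniteDimensional F E] [AddCommGroup V] [Module F V] (Q : QuadraticForm F V) (ρ : E) (n : ℕ)
  (ζ : ZMod n → QL ρ →ₗ[F] V) (π : ZMod n → V →ₗ[F] QL ρ), Zt Q ρ ζ → Pt Q ζ π →
  (∀ i l z, π i (ζ l z) = if i = l then z else 0) ∧
  ∀ P ∈ OQ Q, (∀ i z, P (ζ i z) = ζ (i + 1) z) → ∀ i x, π (i + 1) (P x) = π i x

/-- DBL (long roots, also degenerate). If `u, d` are independent this is `Bl`. Otherwise `u = 0` or `d = c • u`, and `sq Q u d = 1` (`sq_apply`: `B(x,u) c u + B(x, c u) u = 0`, `Q d = 0`; if `u = 0`: `sq Q 0 d x = x`): `Gq.one`. -/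
def DBL_stmt : Prop := ∀ {F V : Type} [Field F] [AddCommGroup V] [Module F V]
  (Q : QuadraticForm F V), (2 : F) = 0 → ∀ (y : Equiv.Perm V) (c : ℕ), Bl Q y c → ∀ u d : V,
  Q u = 0 → Q d = 0 → pb Q u d = 0 → Gq Q y c (sq Q u d)

/-- DTR (transpositions; uses DBL). `e_l = ζ_i (w_l) + ζ_{i'} (w_l)`, `f_l = ζ_i (w_l ω) + ζ_{i'} (w_l ω)` (`w_l = ⟨w_l, 0⟩`, `w_l ω = ⟨0, w_l⟩`). `Q(e_l) = 2 tr(w_l²) = 0`, `Q(f_l) = 0`, all products of the `e_l, f_{l'}` are 0. `τ = ∏_l sq Q e_l f_l` (over `l : Fin d`, a list product or induction), in `OmQ` (`SO`), `Gq Q y (2d) τ`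
(DBL, `Gq.mul`). `τ x = x + ∑_l (B(x,e_l) f_l + B(x,f_l) e_l)`; for `x = ζ_i z`: `B(x,e_l) = tr(z.im w_l)`, `B(x,f_l) = tr(z.re w_l)`, and `∑_l tr(c w_l) w_l = c` for the orthonormal basis: `τ(ζ_i z) = ζ_i z + (ζ_i z + ζ_{i'} z) = ζ_{i'} z`. -/
def DTR_stmt : Prop := ∀ {F E V : Type} [Field F] [Finite F] [Field E] [Finite E] [Algebra F E]
  [FiniteDimensional F E] [AddCommGroup V] [Module F V] (Q : QuadraticForm F V), (2 : F) = 0 →
  SO Q → ∀ y : Equiv.Perm V, Bl Q y 2 → ∀ (ρ : E) (n : ℕ) (ζ : ZMod n → QL ρ →ₗ[F] V), Zt Q ρ ζ →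
  ∀ (d : ℕ) (w : Basis (Fin d) F E),
  (∀ l l', Algebra.trace F E (w l * w l') = if l = l' then 1 else 0) → ∀ i i' : ZMod n, i ≠ i' →
  ∃ τ ∈ OmQ Q, Gq Q y (2 * d) τ ∧ (∀ z, τ (ζ i z) = ζ i' z) ∧ (∀ z, τ (ζ i' z) = ζ i z) ∧
    ∀ l, l ≠ i → l ≠ i' → ∀ z, τ (ζ l z) = ζ l z

/-- DCY (the cyclic permutation; from transpositions as in DTR with cost `c = 2 d`). By induction on `k < n`: the product `P_k = τ_{0,1} τ_{1,2} ... τ_{k-1,k}` maps `ζ_i z` to `ζ_{i+1} z` for `i < k`, `ζ_k z` to `ζ_0 z` and fixes `ζ_l z` for `k < l < n` (indices as numbers `< n`), and `Gq Q y (c k) P_k`.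
`P = P_{n-1}`. (Elements of `OmQ` are linear, for `Gq.mul`.) -/
def DCY_stmt : Prop := ∀ {F V X : Type} [Field F] [AddCommGroup V] [Module F V]
  (Q : QuadraticForm F V) (y : Equiv.Perm V) (n c : ℕ), 1 ≤ n → ∀ ζ : ZMod n → X → V,
  (∀ i i' : ZMod n, i ≠ i' → ∃ τ ∈ OmQ Q, Gq Q y c τ ∧ (∀ z, τ (ζ i z) = ζ i' z) ∧
    (∀ z, τ (ζ i' z) = ζ i z) ∧ ∀ l, l ≠ i → l ≠ i' → ∀ z, τ (ζ l z) = ζ l z) →
  ∃ P ∈ OmQ Q, Gq Q y (c * (n - 1)) P ∧ ∀ i z, P (ζ i z) = ζ (i + 1) z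

/-- DEL (the element `e = E_u`; uses DBL). `U z = ∑ᵢ ζ_i (z u_i)`, `H = H(x) = ∑ π_l(x) star(u_l)`. `b(p,w) = p.re w.im + p.im w.re = (p star w).im` in characteristic two, so `B(x, U z) = tr((H star z).im)`: `B(x, U ⟨c,0⟩) = tr(c H.im)`, `B(x, U ⟨0,c⟩) = tr(c H.re)` (`star ⟨0,c⟩ = c (ω + 1)`,
`((ω+1) H).im = H.re`). `Q(U z) = ∑ tr(N(z u_i)) = tr(N(z) (∑ u_i star u_i).re) = 0` (`N(z) = z star z = z.re² + z.re z.im + ρ z.im²`) and `B(U z, U z') = 0` (polarise). `e = ∏_l sq Q (U ⟨w_l,0⟩) (U ⟨0,w_l⟩)`, `e x = x + ∑_l (B(x, U⟨w_l,0⟩) U⟨0,w_l⟩ + B(x, U⟨0,w_l⟩) U⟨w_l,0⟩)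
= x + U(∑_l (tr(w_l H.im) ⟨0,w_l⟩ + tr(w_l H.re) ⟨w_l,0⟩)) = x + U(H)`. -/
def DEL_stmt : Prop := ∀ {F E V : Type} [Field F] [Finite F] [Field E] [Finite E] [Algebra F E]
  [FiniteDimensional F E] [AddCommGroup V] [Module F V] (Q : QuadraticForm F V), (2 : F) = 0 →
  SO Q → ∀ y : Equiv.Perm V, Bl Q y 2 → ∀ (ρ : E) (n : ℕ) [NeZero n]
  (ζ : ZMod n → QL ρ →ₗ[F] V) (π : ZMod n → V →ₗ[F] QL ρ), Zt Q ρ ζ → Pt Q ζ π →
  ∀ (d : ℕ) (w : Basis (Fin d) F E),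
  (∀ l l', Algebra.trace F E (w l * w l') = if l = l' then 1 else 0) → ∀ u : ZMod n → QL ρ,
  ∑ i, u i * star (u i) = 0 →
  ∃ e ∈ OmQ Q, Gq Q y (2 * d) e ∧ ∀ x, e x = x + ∑ i, ζ i ((∑ l, π l x * star (u l)) * u i)

/-- DSQ (autocorrelations). Square roots in `L`: `⟨p, q⟩ = ⟨√(p + q ρ), √q⟩²` with the square roots of the finite field `E` of characteristic two (unique, additive); `s(z)` commutes with `star`. `u_i = s(c(-2 i))`, so `star (u_i) = u_{-i}` (`c(-i) = star (c i)`), and `∑_i u_i star(u_{i+l}) = ∑_i u_i u_{-i-l}`. The involution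
`i ↦ -i-l` of `ZMod n` (`n` odd) has one fixed point `i₀`, `2 i₀ = -l`; the other terms cancel in pairs (`2 = 0`); `u_{i₀}² = c(-2 i₀) = c(l)`. (`Finset.sum_involution` on the complement of `i₀`, or `∑ over pairs`.) -/
def DSQ_stmt : Prop := ∀ {E : Type} [Field E] [Finite E] (ρ : E), (2 : E) = 0 → ∀ (n : ℕ)
  [NeZero n], Odd n → ∀ c : ZMod n → QL ρ, (∀ i, c (-i) = star (c i)) →
  ∃ u : ZMod n → QL ρ, ∀ l, ∑ i, u i * star (u (i + l)) = c l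

/-- DIO (`io` is a ring homomorphism). `ω' = a + h/σ` satisfies `ω'² = ω' + ρ`: `ω'² + ω' = a² + a + (h² + σ h)/σ² = a² + a + σ⁻²`. -/
def DIO_stmt : Prop := ∀ {E K M : Type} [Field E] [Field K] [Algebra E K] [Field M] [Algebra K M],
  (2 : E) = 0 → ∀ (σ a : K) (ρ : E) (h : M), σ ≠ 0 → a ^ 2 + a + (σ⁻¹) ^ 2 = algebraMap E K ρ →
  h ^ 2 + algebraMap K M σ * h + 1 = 0 → ∃ ι : QL ρ →+* M, ∀ z, ι z = io a σ h z

/-- DFX (two cases). `q' = |E|`, `|K| = q'^n`, Frobenius maps are ring homomorphisms. `h^(q'^n)` is a root of `X² + σ X + 1` (`σ^(q'^n) = σ`), so it is `h` or `h⁻¹` (`h + h⁻¹ = σ`). `ω' = a + h/σ`: `ω'^(q'^n)` is `ω'` or `ω' + 1` (`a + h⁻¹/σ = ω' + 1`). `ω'^q'` is a root of `X² + X + ρ`, so `ω'^q' = ω' + ε`, `ε ∈ {0,1}`, and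
`ω'^(q'^n) = ω' + n ε = ω' + ε`. -/
def DFX_stmt : Prop := ∀ {E K M : Type} [Field E] [Finite E] [Field K] [Finite K] [Algebra E K]
  [FiniteDimensional E K] [Field M] [Algebra K M], (2 : E) = 0 → ∀ n : ℕ, finrank E K = n →
  Odd n → ∀ (σ a : K) (ρ : E) (h : M), σ ≠ 0 → a ^ 2 + a + (σ⁻¹) ^ 2 = algebraMap E K ρ →
  h ^ 2 + algebraMap K M σ * h + 1 = 0 →
  (h ^ (Nat.card E ^ n) = h ∧ (algebraMap K M a + h * (algebraMap K M σ)⁻¹) ^ Nat.card E =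
    algebraMap K M a + h * (algebraMap K M σ)⁻¹) ∨
  (h ^ (Nat.card E ^ n) = h⁻¹ ∧ (algebraMap K M a + h * (algebraMap K M σ)⁻¹) ^ Nat.card E =
    algebraMap K M a + h * (algebraMap K M σ)⁻¹ + 1)

/-- DPR (the polynomial). `M` a field of characteristic two, `Q₁ = q'^2`, `n` odd, `h^(q'^(2n)) = h`. `p = ∏_{i<n} (X + C (h^(Q₁^i)))`. `p(h) = 0`, `p` is monic of degree `n`; `p.coeff 0 = ∏ h^(Q₁^i) = h^(∑ Q₁^i) =: N` is 1: raising to the power `Q₁` permutes the factors, so `N^(Q₁ - 1) = 1`, and `N^r = 1`,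
`r` prime, `r ∤ Q₁ - 1`. `p' = ∏ (X + C (h^(Q₁^i))⁻¹)`: `(X + C x⁻¹) = C x⁻¹ * reverse (X + C x)` so `p' = C N⁻¹ * reverse p`, that is `p'.coeff i = p.coeff (n - i)` for `i ≤ n`. Let `φ x = x^q'` (a ring homomorphism), `φ p` (coefficients) `= ∏ (X + C (h^(q' Q₁^i)))`. If `h^(q'^n) = h` then
`h^q' = h^(q'^(n+1)) = h^(Q₁^((n+1)/2))`, so `φ p = p` (the factors are permuted cyclically; `h^(Q₁^n) = h`); if `h^(q'^n) = h⁻¹` then `h^q' = (h^(Q₁^((n+1)/2)))⁻¹`, so `φ p = p'`. Conclusion with `e i = p.coeff (n - i)` (`1 ≤ i < n`): `h^n + ∑ e_i h^(n-i) + 1 = 0`. -/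
def DPR_stmt : Prop := ∀ {M : Type} [Field M], (2 : M) = 0 → ∀ (f q' n r : ℕ) (h : M),
  q' = 2 ^ f → 1 ≤ f → Odd n → r.Prime → h ^ r = 1 → h ≠ 1 → ¬ r ∣ q' ^ 2 - 1 →
  (h ^ (q' ^ n) = h ∨ h ^ (q' ^ n) = h⁻¹) →
  ∃ e : ℕ → M, h ^ n + ∑ i ∈ Finset.Ico 1 n, e i * h ^ (n - i) + 1 = 0 ∧
    (h ^ (q' ^ n) = h → ∀ i ∈ Finset.Ico 1 n, e i ^ q' = e i) ∧
    (h ^ (q' ^ n) = h⁻¹ → ∀ i ∈ Finset.Ico 1 n, e i ^ q' = e (n - i))

/-- DCO (the coefficients `c`; uses DFX, DPR). `e_i` from DPR (`f`: `|E| = 2^f`). An element of `M` with `x^q' = x` is in the image of `E` (`X^q' - X` has at most `q'` roots). For `1 ≤ i < n`: `β_i = e_i + e_{n-i}`, `α_i = e_i + β_i ω'` with `ω' = a + h/σ`. In the first case of DFX `e_i, ω'` are fixed by `x ↦ x^q'`; in the second case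
`e_i^q' = e_{n-i}`, `ω'^q' = ω' + 1`, so `β_i^q' = β_i`, `α_i^q' = e_{n-i} + β_i (ω' + 1) = e_i + β_i ω'`. `c(i) = ⟨α_i, β_i⟩ ∈ L` for `1 ≤ i < n` (index `i = (i : ZMod n).val`), `c(0) = 0`: `io c(i) = e_i`, and `c(n-i) = ⟨α_{n-i}, β_{n-i}⟩ = ⟨α_i + β_i, β_i⟩ = star c(i)`. -/
def DCO_stmt : Prop := ∀ {E K M : Type} [Field E] [Finite E] [Field K] [Finite K] [Algebra E K]
  [FiniteDimensional E K] [Field M] [Algebra K M], (2 : E) = 0 → ∀ n : ℕ, finrank E K = n →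
  Odd n → ∀ (σ a : K) (ρ : E) (h : M), σ ≠ 0 → a ^ 2 + a + (σ⁻¹) ^ 2 = algebraMap E K ρ →
  h ^ 2 + algebraMap K M σ * h + 1 = 0 → ∀ r : ℕ, r.Prime → h ^ r = 1 →
  ¬ r ∣ Nat.card E ^ 2 - 1 → ∃ c : ZMod n → QL ρ, c 0 = 0 ∧ (∀ i, c (-i) = star (c i)) ∧
    1 + h ^ n = ∑ i ∈ Finset.Ico 1 n, h ^ (n - i) * io a σ h (c (i : ZMod n))

/-- DYY (the functional). `Y_i = (1 + h^n)⁻¹ ∑_{l<n} h^(n-1-l) ι(star u_{i+l})`. `(1 + h^n)(h Y_i + ι(star u_i)) = ∑_{l<n} h^(n-l) ι(star u_{i+l}) + (1 + h^n) ι(star u_i)`; the term `l = 0` cancels `h^n ι(star u_i)` (characteristic two), what remains is `∑_{l<n} h^(n-1-l) ι(star u_{i+1+l})` (the term `l = n-1` is `ι(star u_{i+n})`).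
`(1 + h^n) ∑_i ι(u_i) Y_{i+1} = ∑_{l<n} h^(n-1-l) ι(∑_i u_i star u_{i+1+l})`, with `l' = l + 1 ∈ [1, n]`: the term `l' = n` is `∑ u_i star u_i = 0`, the rest is `1 + h^n` by hypothesis. -/
def DYY_stmt : Prop := ∀ {L M : Type} [CommRing L] [StarRing L] [Field M] (ι : L →+* M) (n : ℕ)
  [NeZero n] (u : ZMod n → L) (h : M), (2 : M) = 0 → h ^ n ≠ 1 →
  ∑ i, u i * star (u i) = 0 →
  1 + h ^ n = ∑ l ∈ Finset.Ico 1 n, h ^ (n - l) * ι (∑ i, u i * star (u (i + (l : ZMod n)))) →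
  ∃ Y : ZMod n → M, (∀ i, Y (i + 1) + ι (star (u i)) = h * Y i) ∧
    ∑ i, ι (u i) * Y (i + 1) = 1

/-- DNM (order divisible by `r`). If `g^i = c` is a scalar: `c² Q(v) = Q(v)`, `c = 1` (`(c+1)² = 0`), `g^i = 1`, `φ(x) = φ(g^i x) = h^i φ(x)`, `h^i = 1`; `h` has order `r`. -/
def DNM_stmt : Prop := ∀ {F V M : Type} [Field F] [AddCommGroup V] [Module F V] [Field M]
  (Q : QuadraticForm F V), (2 : F) = 0 → (∃ v, Q v ≠ 0) → ∀ g ∈ OQ Q, ∀ (φ : V → M) (h : M),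
  (∃ x, φ x ≠ 0) → (∀ x, φ (g x) = h * φ x) → ∀ r : ℕ, r.Prime → h ^ r = 1 → h ≠ 1 → NS F r g

/-! DZ (the result of part D; theorem `DZ (..) : DZ_stmt`, uses SGQ, ORD, ONB, DSB, DHR, DAR, DZE, DPI, DPZ, DTR, DCY, DEL, DSQ, DIO, DCO, DYY, DNM). `E` from DSB, `finrank F E = d`, `finrank E K = n` (tower), `|E| = q^d`. `M = AlgebraicClosure K`, `h ∈ M` a root of `X² + σ X + 1`, `h ≠ 1` as `σ ≠ 0`,
`h^r = 1` (DHR). `r ∤ |E|² - 1 = q^(2d) - 1` by ORD with `i = d` (`d n ∣ d` is impossible). `h^n ≠ 1`: otherwise `r ∣ n`, but `r ∣ q^(r-1) - 1` (Fermat; `r ∤ q`, `q` is a power of 2, `r` odd), `r - 1 = 2 i`, so `m ∣ i` (ORD) and `n ≤ m < r`. DAR for `t = σ⁻²`: `a, ρ`. ONB for `K/E` (reindexed by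
`ZMod n`) and for `E/F` (`Fin d`). DZE: `ζ`, DPI: `π`. DCO: `c`; DSQ: `u`, `∑ u_i star u_{i+l} = c l`; DYY with `ι` of DIO: `Y`. `P` from DCY and DTR (`c = 2 d`), `e` from DEL, `g = P * e`, `Gq Q y (2 d (n-1) + 2 d) g`. `φ(x) = ∑ ι(π_i x) Y_i`. `π_{i+1}(g x) = π_i (e x) = π_i x + H u_i` (DPZ), so
`φ(g x) = ∑ ι(π_i x + H u_i) Y_{i+1} = ∑ ι(π_i x) Y_{i+1} + ι(H) = ∑ ι(π_i x) (Y_{i+1} + ι(star u_i)) = h φ(x)` (`H = ∑ π_i x star u_i`). `φ ≠ 0`: some `Y_i ≠ 0`, `φ(ζ_i 1) = Y_i`. DNM (`Q(ζ_0 ⟨c,0⟩) = tr(c²)` is not always 0). -/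

end

end Pool.Agent.ORE
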